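import Mathlib
import Pool.Agent.Run7.h683.MR.W

set_option autoImplicit false

/-!
# MP_f1a024_nt: the numbers `ζ(2n) / ζ(n)^2` and their multiples by numbers algebraic over `ℚ(π)` in random mixed radices

Question Q1 asks whether `t(n) = ζ(2n) / ζ(n)^2` is irrational for all odd `n ≥ 3`. We look at the expansions of the numbers
`β t(n)`, where `β` is algebraic over `ℚ(π)`, for instance of `t(n) π^j`, `j ∈ ℤ`, in mixed radices: the place values are
`1 / (p_0 p_1 ⋯ p_n)`, where `p_k` are independent random primes, `p_k` uniformly distributed on the primes up to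
`(k + 2) ^ θ`, `θ > 1`. The tail of the expansion of `y` after the place `n` is the fractional part of `p_0 ⋯ p_(n-1) y`.

(1) Almost surely, for all `n ≥ 2` and all `β_1, …, β_s` algebraic over `ℚ(π)` and linearly independent over `ℚ`, for all
large `N`: all tuples of linearly independent integral forms of height `≤ H` in the numbers `β_i t(n)` are jointly
equidistributed up to the place `N`, with words of length `L`, up to `ε`; or there is ONE exceptional form `g`, with
coefficients at most `exp (N ^ a)` and with `g(β t(n))` closer than `exp (- N ^ b)` to an integer, `0 < a < b < 1`, such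
that this is true for all tuples of forms which are linearly independent modulo `g`.

(2) In particular, almost surely, for all `n ≥ 2`, `J`, `L`, `ε > 0`, for all large `N`, all but at most one of the `2 J + 1`
numbers `t(n) π^j`, `-J ≤ j ≤ J`, are jointly equidistributed up to `N`. If `t(n)` is rational (which is true for all even
`n`), it is the exceptional number for all large `N`.

Proof. The second moment of the exponential sums of one number `y` up to the place `N` is small unless `y` is very close
to a rational number with a denominator `≤ exp (N ^ a)` (bilinear sums over the last two primes, and a descent; see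
MP_5b6025_nt.RandomMixedRadix). Two numbers `B t`, `B' t`, `B / B'` irrational, are never both so close to rational
numbers, by the measure of linear independence for the numbers algebraic over `ℚ(π)`. The theorem is true, with the same
proof, for every real number `t ≠ 0` in place of `t(n)`; so it compares `t(n)` with its multiples.
-/

namespace Pool.Agent.Results.MP_f1a024_nt.MultiplesInRandomRadices

open Filter Topology MeasureTheory ProbabilityTheory

/-- the primes up to `(k + 2) ^ θ` -/
noncomputable def primes (θ : ℝ) (k : ℕ) : Finset ℕ := Nat.primesLE ⌊((k : ℝ) + 2) ^ θ⌋₊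

/-- `p 0, p 1, …` are independent random primes, `p k` is uniformly distributed on the primes up to `(k + 2) ^ θ` -/
structure RandomPrimes (θ : ℝ) {Ω : Type} [MeasurableSpace Ω] (P : Measure Ω) (p : ℕ → Ω → ℕ) : Prop where
  mem : ∀ k ω, p k ω ∈ primes θ k
  indep : iIndepFun p P
  uniform : ∀ k, ∀ q ∈ primes θ k, P.real {ω | p k ω = q} = 1 / ((primes θ k).card : ℝ)

/-- the product `p 0 ⋯ p (n - 1)` -/
def prod (p : ℕ → ℕ) (n : ℕ) : ℕ := ∏ k ∈ Finset.range n, p k

/-- the numbers `x i` are jointly equidistributed in the mixed radix `p` up to the place `N`, with words of length `L`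
and up to the error `ε`: for all boxes the number of the places `n < N`, such that the fractional parts of
`p 0 ⋯ p (n + l - 1) * x i`, `l < L`, are in the box, is equal to the volume of the box times `N` up to `ε N` -/
def Equi (p : ℕ → ℕ) {m : ℕ} (x : Fin m → ℝ) (L N : ℕ) (ε : ℝ) : Prop :=
  ∀ u w : Fin L → Fin m → ℝ, (∀ l i, 0 ≤ u l i ∧ u l i ≤ w l i ∧ w l i ≤ 1) →
    |(((Finset.range N).filter fun n => ∀ l i, u l i ≤ Int.fract ((prod p (n + (l : ℕ)) : ℝ) * x i) ∧
      Int.fract ((prod p (n + (l : ℕ)) : ℝ) * x i) < w l i).card : ℝ) - (∏ l, ∏ i, (w l i - u l i)) * N| ≤ ε * N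

/-- the integral vectors `f j` are linearly independent modulo the line through `g` (or, for `g = 0`, linearly
independent) -/
def IndependentMod {s m : ℕ} (g : Fin s → ℤ) (f : Fin m → Fin s → ℤ) : Prop :=
  ∀ (c : Fin m → ℤ) (a : ℤ), (∀ i, ∑ j, c j * f j i = a * g i) → c = 0

/-- the distance of `t` to the nearest integer -/
noncomputable def dist (t : ℝ) : ℝ := |t - round t|

/-- Outside at most one line all integral forms in the numbers `y i` are jointly equidistributed, at every scale: for
all `m, L, H, ε` and all large `N`, all `m`-tuples of linearly independent forms of height `≤ H` are jointly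
equidistributed up to `N`; or there is a form `g ≠ 0` with coefficients `≤ exp (N ^ a)` whose value is closer than
`exp (- N ^ b)` to an integer, and all `m`-tuples of forms of height `≤ H` which are linearly independent modulo `g` are
jointly equidistributed up to `N`. -/
def OneLine (a b : ℝ) (p : ℕ → ℕ) {s : ℕ} (y : Fin s → ℝ) : Prop :=
  ∀ (m L H : ℕ) (ε : ℝ), 0 < ε → ∀ᶠ N : ℕ in atTop,
    (∀ f : Fin m → Fin s → ℤ, (∀ j i, |f j i| ≤ H) → IndependentMod 0 f →
      Equi p (fun j => ∑ i, (f j i : ℝ) * y i) L N ε) ∨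
    ∃ g : Fin s → ℤ, g ≠ 0 ∧ (∀ i, |(g i : ℝ)| ≤ Real.exp ((N : ℝ) ^ a)) ∧
      dist (∑ i, (g i : ℝ) * y i) < Real.exp (-(N : ℝ) ^ b) ∧
      ∀ f : Fin m → Fin s → ℤ, (∀ j i, |f j i| ≤ H) → IndependentMod g f →
        Equi p (fun j => ∑ i, (f j i : ℝ) * y i) L N ε

/-- the numbers `β i` are linearly independent over `ℚ` -/
def Independent {s : ℕ} (β : Fin s → ℝ) : Prop := ∀ g : Fin s → ℤ, ∑ i, (g i : ℝ) * β i = 0 → g = 0

/-- the number `ζ(n)` -/
noncomputable def zeta (n : ℕ) : ℝ := ∑' k : ℕ, 1 / ((k : ℝ) + 1) ^ n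

/-- the number `t(n) = ζ(2n) / ζ(n)^2` -/
noncomputable def t (n : ℕ) : ℝ := zeta (2 * n) / zeta n ^ 2

open Run7.h683.MR in
/-- In almost all the mixed radices of random primes, for all `n ≥ 2`: at every place at most one line of integral forms
in the numbers `β_i t(n)`, `β_i` algebraic over `ℚ(π)`, is exceptional; all but at most one of the numbers `t(n) π^j`,
`-J ≤ j ≤ J`, are jointly equidistributed up to `N`, for all large `N`. -/
theorem result (θ : ℝ) (hθ : 1 < θ) :
    ∃ a b : ℝ, 0 < a ∧ a < b ∧ b < 1 ∧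
      (∀ (Ω : Type) [MeasurableSpace Ω] (P : Measure Ω) [IsProbabilityMeasure P] (p : ℕ → Ω → ℕ),
        RandomPrimes θ P p →
          -- (1) forms in the numbers `β_i t(n)`
          (∀ᵐ ω ∂P, ∀ n : ℕ, 2 ≤ n → ∀ (s : ℕ) (β : Fin s → ℝ),
            (∀ i, IsAlgebraic (Algebra.adjoin ℤ ({Real.pi} : Set ℝ)) (β i)) → Independent β →
              OneLine a b (fun k => p k ω) (fun i => β i * t n)) ∧
          -- (2) the numbers `t(n) π^(j - J)`, `0 ≤ j ≤ 2 J`
          (∀ᵐ ω ∂P, ∀ n : ℕ, 2 ≤ n → ∀ (J L : ℕ) (ε : ℝ), 0 < ε → ∀ᶠ N : ℕ in atTop, ∃ j₀ : Fin (2 * J + 1),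
            Equi (fun k => p k ω) (fun j : Fin (2 * J) =>
              t n * Real.pi ^ (((j₀.succAbove j : Fin (2 * J + 1)) : ℕ) : ℤ) / Real.pi ^ (J : ℤ)) L N ε)) ∧
      -- such random primes exist
      ∃ (Ω : Type) (_ : MeasurableSpace Ω) (P : Measure Ω) (_ : IsProbabilityMeasure P) (p : ℕ → Ω → ℕ),
        RandomPrimes θ P p := by
  obtain ⟨a, b, ha, hab, hb, h⟩ := one_line.{0} (growth θ hθ)
  have hz : Run7.h683.AB.MT Real.pi := Run7.h683.AB.mt_cases (Or.inr (Or.inl rfl))
  have ht : ∀ n : ℕ, 2 ≤ n → t n ≠ 0 := by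
    intro n hn
    have h1 : 0 < zeta n := zeta_pos hn
    have h2 : 0 < zeta (2 * n) := zeta_pos (by omega)
    exact (div_pos h2 (pow_pos h1 2)).ne'
  refine ⟨a, b, ha, hab, hb, ?_, ?_⟩
  · intro Ω _ P _ p hp
    have h1 : ∀ᵐ ω ∂P, ∀ n : ℕ, 2 ≤ n → ∀ (s : ℕ) (β : Fin s → ℝ),
            (∀ i, IsAlgebraic (Algebra.adjoin ℤ ({Real.pi} : Set ℝ)) (β i)) → Independent β →
              OneLine a b (fun k => p k ω) (fun i => β i * t n) := by
      rw [ae_all_iff]
      intro n
      by_cases hn : 2 ≤ n
      · filter_upwards [one_line_mul P p (h Ω P p (uniform_of_indep hp.mem hp.indep hp.uniform)) hz (ht n hn)] with ω hω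
        exact fun _ => hω
      · exact Eventually.of_forall fun ω h2 => absurd h2 hn
    refine ⟨h1, ?_⟩
    filter_upwards [h1] with ω hω
    intro n hn J L ε hε
    have h3 := OneLine.joint (hω n hn (2 * J + 1) _ (fun j => (alg_pow Real.pi j).mul (alg_inv_pow Real.pi J))
      (indepZ_pow_mul hz (2 * J) (inv_ne_zero (pow_ne_zero J Real.pi_ne_zero)))) L ε hε
    filter_upwards [h3] with N hN
    obtain ⟨j₀, hj₀⟩ := hN
    refine ⟨j₀, ?_⟩
    have h4 : (fun j : Fin (2 * J) => Real.pi ^ ((j₀.succAbove j : Fin (2 * J + 1)) : ℕ) * (Real.pi ^ J)⁻¹ * t n) =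
        fun j : Fin (2 * J) => t n * Real.pi ^ (((j₀.succAbove j : Fin (2 * J + 1)) : ℕ) : ℤ) / Real.pi ^ (J : ℤ) := by
      funext j
      rw [zpow_natCast, zpow_natCast, div_eq_mul_inv]
      ring
    rw [← h4]
    exact hj₀
  · obtain ⟨Ω, i1, P, i2, p, h5, h6, h7⟩ := exists_uniform (Sk θ) (growth θ hθ).ne
    exact ⟨Ω, i1, P, i2, p, ⟨h5, h6, h7⟩⟩

end Pool.Agent.Results.MP_f1a024_nt.MultiplesInRandomRadices
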