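import Mathlib
import Pool.Agent.Run7.h360.CF.Line
import Pool.Agent.Run7.h360.CF.Mono
import Pool.Agent.Run7.h360.CF.Poly

/-!
# The descriptions of `ζ(2n)/ζ(n)²` and of `π^i t(n)^j`, uniformly in `n`

Let `t(n) = ζ(2n) / ζ(n)²`.  Question Q1 asks if `t(n)` is irrational for all odd `n ≥ 3`.  We compare,
uniformly in `n`, the descriptions of the numbers `π^i t(n)^j`, and more generally of the monomials and
polynomials in `π` and finitely many of the numbers `t(n)`, at every scale.

Let `y = [a_0; a_1, a_2, …]` be the regular continued fraction of a real number, `q_i` the denominators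
of its convergents.  The places `u+1, …, v` are *copied at the price `N`* if, with the exception of
places up to some `s` with `q_s ≤ e^N q_u`, the partial quotients `a_i` at these places are equal to
the partial quotients `a_{i-d}` for one `d > 0` (`Copied`; the copied part may begin at any earlier
place and may overlap its copy, so that all periodic stretches with a short period are included).  A
number `y` is *simple up to the scale `X` with the parameters `r, K, N`* (`Simple`) if

* after the removal of at most `K` places all stretches of the partial quotients `a_{i+1}` with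
  `q_i ≤ e^X` are copied at the price `N`; or
* for some base `b`, after the removal of at most `K` places all stretches `u+1, …, v ≤ L` of the
  digits, `X ≤ L log b`, are terms of sequences whose power series satisfy modulo `t^(v+1)` an algebraic
  equation of degree `≤ r` with coefficients of degree `≤ k + r u`, `(k+1) log b ≤ N`; or
* the fractional part `z` of `y` satisfies `|P(z)| ≤ e^(-X)` for an integer polynomial `P ≠ 0` of degree
  `≤ r` with coefficients `≤ e^N`.

So `K` is the number of the breaks, `N` the price of the description and `X` the length.  We prove, with constants `A` which depend only on `D`, `r` and the number `m` of the `n_j`, and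
not on the integers `n, n_1, …, n_m ≥ 2`:

* if `(i, j)`, `(k, l)` are integral points with coordinates `≤ D` which are not proportional, and Möbius images
  (with integral coefficients of height `≤ H`) of `π^i t(n)^j` and `π^k t(n)^l` are simple up to `X` with `K`,
  `K'` breaks at the prices `N`, `N'`, then `X ≤ A^(K+K'+1) (N + N' + log H + 1)`;
* if `t(n)` is a fraction with a denominator `≤ M`, then all `π^i t(n)^j` with `i ≠ 0`, `|i|, |j| ≤ D`, and their
  Möbius images are complicated at all scales `X > A^(K+1) (N + log M + log H + 1)`; conversely the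
  simplicity of one such number at one scale excludes all small denominators of `t(n)`;
* the ℚ-span of the exponents `a`, `|a_i| ≤ D`, for which a Möbius image of
  `π^(a_0) t(n_1)^(a_1) ⋯ t(n_m)^(a_m)` is simple does not contain `(1, 0, …, 0)`, and the ℚ-span of the
  integral polynomials `P(T_0, …, T_m)` of degree `≤ D` and height `≤ H` with a simple value
  `(P(π, t(n_1), …, t(n_m)) + c) / q`, `1 ≤ q ≤ H`, `c` any integer, contains no nonconstant polynomial in
  `T_0` alone (with `K` breaks at the price `N`, `A^(K+1) (N + log H + 1) < X`).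

For even `n` the number `t(n)` is rational; the simple numbers `π^i t(n)^j` are then on the line `i = 0`.  Q1
says in particular that for odd `n` the numbers on this line are not rational.

Proof.  A copy at the places `s+1, …, v` of the continued fraction gives the quadratic polynomial
`(q_{r-1} X - p_{r-1}) (q_s X - p_s) - (q_{s-1} X - p_{s-1}) (q_r X - p_r)`, whose value at `y` is, up to the
sign, not changed by a common letter and so at most `2 / q_v`; its leading coefficient is not zero.  The
breaks of the descriptions divide the interval `[0, X]` of scales into few intervals, and on each of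
them all the numbers have integer polynomials with small coefficients and a very small value
(`Pool.Agent.Run7.h360.CF`).  Möbius images transform these polynomials.  The numbers `u = π^i z^j` and
`v = π^k z^l` satisfy the relation `u^l v^(-j) = π^(il-jk)`, which does not contain `z`; if the span of the
simple monomials (or polynomials) contains `π` (a nonconstant polynomial in `π`), then by Cramer's rule few
of them satisfy a relation over `ℤ[π]` with small coefficients.  Numbers which
satisfy a relation over `ℤ[π]` have a joint measure, uniformly in the relation (helper168,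
`Run7.h168.Uni.jointH_rel`), which comes from the transcendence measure of `π`.  The starting files of this
problem are about large `n` (where `t(n)` is close to an explicit rational number), not about fixed `n`.
-/

set_option autoImplicit false

namespace Pool.Agent.Results.MP_f1a024_nt.SimpleMonomialsUniformInN

open Polynomial

/-- `ζ(n)` -/
noncomputable def zeta (n : ℕ) : ℝ := ∑' k : ℕ, 1 / ((k : ℝ) + 1) ^ n

/-- `t(n) = ζ(2n) / ζ(n)²` -/
noncomputable def t (n : ℕ) : ℝ := zeta (2 * n) / zeta n ^ 2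

/-- the rational vector of an integral vector -/
def ratVec {ι : Type} (a : ι → ℤ) : ι → ℚ := fun i => (a i : ℚ)

/-- the partial quotient `a_{i+1}` of `y = [a_0; a_1, a_2, …]` (`none` if the continued fraction has ended) -/
noncomputable def letter (y : ℝ) (i : ℕ) : Option ℝ := (GenContFract.of y).partDens.get? i

/-- the denominator `q_i` of `[a_0; a_1, …, a_i]` (the last denominator if the continued fraction has
ended) -/
noncomputable def den (y : ℝ) (i : ℕ) : ℝ := (GenContFract.of y).dens i

/-- the places `u+1, …, v` are copied at the price `N`: up to the place `s`, `q_s ≤ e^N q_u`, they are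
arbitrary, and from then on the partial quotients are equal to those `s - r` places before -/
def Copied (y : ℝ) (N : ℝ) (u v : ℕ) : Prop :=
  ∃ r s, r < s ∧ den y s ≤ Real.exp N * den y u ∧ ∀ i, s ≤ i → i < v → letter y i = letter y (i - (s - r))

/-- the partial quotients `a_{i+1}` with `q_i ≤ e^X` are copied at the price `N` on all stretches which
contain none of at most `K` places -/
def Pieces (y : ℝ) (K : ℕ) (N X : ℝ) : Prop :=
  ∃ T : Finset ℕ, T.card ≤ K ∧ ∀ u v, u < v → den y (v - 1) ≤ Real.exp X → (∀ t ∈ T, t ≤ u ∨ v < t) →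
    Copied y N u v

/-- the `i`-th digit of `y` after the point in base `b` -/
noncomputable def digit (b : ℕ) (y : ℝ) (i : ℕ) : ℤ := ⌊y * (b : ℝ) ^ i⌋ % (b : ℤ)

/-- the polynomial `s_1 X + s_2 X^2 + ⋯ + s_L X^L` -/
noncomputable def seqPoly (s : ℕ → ℤ) (L : ℕ) : ℚ[X] := ∑ l ∈ Finset.Icc 1 L, C (s l : ℚ) * X ^ l

/-- there is a nonzero polynomial `P(X, Y)` over `ℚ` of degree `≤ r` in `Y` and `≤ k` in `X` such
that `P(X, S(X))` is divisible by `X^(L+1)`, where `S` is the polynomial of the first `L` terms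
of `s` -/
def AlgRelation (s : ℕ → ℤ) (r L k : ℕ) : Prop :=
  ∃ P : ℚ[X][X], P ≠ 0 ∧ P.natDegree ≤ r ∧ (∀ j, (P.coeff j).natDegree ≤ k) ∧
    X ^ (L + 1) ∣ P.eval (seqPoly s L)

/-- the digits of `y` at the places `u+1, …, v` are the terms at these places of a sequence `s` of base `b`
digits, and the first `v` terms of `s` satisfy an algebraic relation of degree `≤ r` with coefficients of
degree `≤ k + r u` -/
def Described (b : ℕ) (y : ℝ) (r k u v : ℕ) : Prop :=
  ∃ s : ℕ → ℤ, (∀ l, 0 ≤ s l ∧ s l < b) ∧ (∀ l, u < l → l ≤ v → s l = digit b y l) ∧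
    AlgRelation s r v (k + r * u)

/-- the first `L` digits of `y` are described on all stretches which contain none of at most `K` places -/
def PieceByPiece (b : ℕ) (y : ℝ) (r K L k : ℕ) : Prop :=
  ∃ T : Finset ℕ, T.card ≤ K ∧
    ∀ u v, u ≤ v → v ≤ L → (∀ t ∈ T, t ≤ u ∨ v < t) → Described b y r k u v

/-- the fractional part of `y` almost satisfies an algebraic equation -/
def NearAlg (r : ℕ) (N X y : ℝ) : Prop :=
  ∃ P : ℤ[X], P ≠ 0 ∧ P.natDegree ≤ r ∧ (∀ i, |((P.coeff i : ℤ) : ℝ)| ≤ Real.exp N) ∧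
    |(aeval (Int.fract y) P : ℝ)| ≤ Real.exp (-X)

/-- `y` is simple up to the scale `X`, with `K` breaks and at the price `N` -/
def Simple (r K : ℕ) (N X y : ℝ) : Prop :=
  Pieces y K N X ∨
    (∃ b k L : ℕ, 2 ≤ b ∧ (k + 1) * Real.log b ≤ N ∧ X ≤ L * Real.log b ∧ PieceByPiece b y r K L k) ∨
    NearAlg r N X y

/-- `y` is the image of `w` under a Möbius transformation with integral coefficients of height `≤ H`, and
`|y| ≤ H` -/
def Image (H w y : ℝ) : Prop :=
  |y| ≤ H ∧ ∃ a b c d : ℤ, a * d - b * c ≠ 0 ∧ |(a : ℝ)| ≤ H ∧ |(b : ℝ)| ≤ H ∧ |(c : ℝ)| ≤ H ∧ |(d : ℝ)| ≤ H ∧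
    y * (c * w + d) = a * w + b

lemma summable_zeta {w : ℕ} (hw : 2 ≤ w) : Summable fun k : ℕ => 1 / ((k : ℝ) + 1) ^ w := by
  have h := (summable_nat_add_iff 1).2 (Real.summable_one_div_nat_pow.2 (by omega : 1 < w))
  refine h.congr fun k => ?_
  push_cast
  rfl

lemma one_le_zeta {w : ℕ} (hw : 2 ≤ w) : 1 ≤ zeta w := by
  have h := (summable_zeta hw).sum_le_tsum {0} (fun i _ => by positivity)
  simpa [zeta] using h

lemma zeta_le {w : ℕ} (hw : 2 ≤ w) : zeta w ≤ 2 := by
  have h1 : zeta w ≤ zeta 2 := by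
    refine (summable_zeta hw).tsum_le_tsum (fun k => ?_) (summable_zeta le_rfl)
    refine one_div_le_one_div_of_le (by positivity) (pow_le_pow_right₀ ?_ hw)
    have : (0 : ℝ) ≤ k := Nat.cast_nonneg k
    linarith
  have h2 : HasSum (fun k : ℕ => 1 / ((k : ℝ) + 1) ^ 2) (Real.pi ^ 2 / 6) := by
    have h3 := (hasSum_nat_add_iff' 1).2 hasSum_zeta_two
    simpa using h3
  have h3 : zeta 2 = Real.pi ^ 2 / 6 := h2.tsum_eq
  have h4 := Real.pi_lt_d2
  have h5 := Real.pi_pos
  rw [h3] at h1
  nlinarith

lemma t_le {n : ℕ} (hn : 2 ≤ n) : t n ≤ 2 := by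
  have h1 := one_le_zeta hn
  have h2 := zeta_le (show 2 ≤ 2 * n by omega)
  rw [t, div_le_iff₀ (by positivity)]
  nlinarith

lemma le_t {n : ℕ} (hn : 2 ≤ n) : 1 / 4 ≤ t n := by
  have h1 := one_le_zeta hn
  have h2 := zeta_le hn
  have h3 := one_le_zeta (show 2 ≤ 2 * n by omega)
  rw [t, le_div_iff₀ (by positivity)]
  nlinarith

/-- Let `t(n) = ζ(2n) / ζ(n)²`.

**(1)** For all `D`, `r` there is `A ≥ 1` such that for all `n ≥ 2`, all integral points `(i, j)` and `(k, l)`
with coordinates `≤ D` which are not proportional, and all Möbius images `y`, `y'` of height `≤ H` of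
`π^i t(n)^j` and of `π^k t(n)^l` which are simple up to `X` with `K`, `K'` breaks at the prices `N`, `N'`,
`X ≤ A^(K+K'+1) (N + N' + log H + 1)`.

**(2)** For all `D`, `r ≥ 1` there is `A ≥ 1` such that for all `n ≥ 2` for which `t(n) = p/q` is rational,
`1 ≤ q ≤ M`, all integral points `(i, j)` with coordinates `≤ D`, `i ≠ 0`, and all Möbius images `y` of height
`≤ H` of `π^i t(n)^j` which are simple up to `X` with `K` breaks at the price `N`,
`X ≤ A^(K+1) (N + log M + log H + 1)`.

**(3) Monomials.** For all `m`, `D`, `r` there is `A ≥ 1` such that for all `n_1, …, n_m ≥ 2`: if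
`A^(K+1) (N + log H + 1) < X`, `H ≥ 1`, then `(1, 0, …, 0)` is not in the ℚ-span of the integral vectors `a` with
coordinates `≤ D`, for which some Möbius image of height `≤ H` of `π^(a_0) t(n_1)^(a_1) ⋯ t(n_m)^(a_m)` is
simple up to `X` with `K` breaks at the price `N`.

**(4) Polynomials.** For all `m`, `D`, `r` there is `A ≥ 1` such that for all `n_1, …, n_m`: if
`A^(K+1) (N + log H + 1) < X`, `H ≥ 1`, then the ℚ-span of the integral polynomials `P(T_0, …, T_m)` of degree
`≤ D` with coefficients `≤ H`, for which some number `(P(π, t(n_1), …, t(n_m)) + c) / q`, `1 ≤ q ≤ H`, `c` any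
integer, is simple up to `X` with `K` breaks at the price `N`, contains no nonconstant polynomial in `T_0`
alone. -/
theorem result :
    (∀ D r : ℕ, ∃ A : ℝ, 1 ≤ A ∧ ∀ n : ℕ, 2 ≤ n →
      ∀ i j k l : ℤ, |i| ≤ D → |j| ≤ D → |k| ≤ D → |l| ≤ D → i * l - j * k ≠ 0 →
      ∀ (H y y' : ℝ) (K K' : ℕ) (N N' X : ℝ), 1 ≤ H → Image H (Real.pi ^ i * t n ^ j) y →
        Image H (Real.pi ^ k * t n ^ l) y' → 0 ≤ N → 0 ≤ N' → Simple r K N X y → Simple r K' N' X y' →
        X ≤ A ^ (K + K' + 1) * (N + N' + Real.log H + 1)) ∧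
    (∀ D r : ℕ, 1 ≤ r → ∃ A : ℝ, 1 ≤ A ∧ ∀ n : ℕ, 2 ≤ n →
      ∀ (p q : ℤ) (M : ℝ), 1 ≤ q → (q : ℝ) ≤ M → t n = p / q →
      ∀ i j : ℤ, |i| ≤ D → |j| ≤ D → i ≠ 0 → ∀ (H y : ℝ) (K : ℕ) (N X : ℝ), 1 ≤ H →
        Image H (Real.pi ^ i * t n ^ j) y → 0 ≤ N → Simple r K N X y →
        X ≤ A ^ (K + 1) * (N + Real.log M + Real.log H + 1)) ∧
    (∀ m D r : ℕ, ∃ A : ℝ, 1 ≤ A ∧ ∀ (n : Fin m → ℕ) (H : ℝ) (K : ℕ) (N X : ℝ), (∀ j, 2 ≤ n j) → 1 ≤ H →
      0 ≤ N → A ^ (K + 1) * (N + Real.log H + 1) < X →
      ratVec (Pi.single 0 1 : Fin (m + 1) → ℤ) ∉ Submodule.span ℚ (ratVec '' {a : Fin (m + 1) → ℤ |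
        (∀ i, |a i| ≤ D) ∧ ∃ y, Image H (Real.pi ^ a 0 * ∏ j : Fin m, t (n j) ^ a j.succ) y ∧
          Simple r K N X y})) ∧
    ∀ m D r : ℕ, ∃ A : ℝ, 1 ≤ A ∧ ∀ (n : Fin m → ℕ) (H : ℝ) (K : ℕ) (N X : ℝ), 1 ≤ H → 0 ≤ N →
      A ^ (K + 1) * (N + Real.log H + 1) < X →
      ∀ Q ∈ Submodule.span ℚ (MvPolynomial.map (Int.castRingHom ℚ) '' {P : MvPolynomial (Fin (m + 1)) ℤ |
          P.totalDegree ≤ D ∧ (∀ s, |((P.coeff s : ℤ) : ℝ)| ≤ H) ∧ ∃ c q : ℤ, 1 ≤ q ∧ (q : ℝ) ≤ H ∧
          Simple r K N X ((MvPolynomial.aeval (Fin.cons Real.pi (fun j => t (n j)) : Fin (m + 1) → ℝ) P +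
            c) / q)}),
        (∀ s, Q.coeff s ≠ 0 → ∀ j : Fin m, s j.succ = 0) → ∀ s, s ≠ 0 → Q.coeff s = 0 := by
  have hm : Pool.Agent.TH456.TM.MeasT ((Real.pi : ℝ) : ℂ) :=
    Pool.Agent.R473.JC.measT_three _ (Or.inr (Or.inl rfl))
  have himg : ∀ H H' w y : ℝ, H ≤ H' → Image H w y → Image H' w y := by
    rintro H H' w y hHH' ⟨h2, a, b, c, d, h3, h4, h5, h6, h7, h8⟩
    exact ⟨h2.trans hHH', a, b, c, d, h3, h4.trans hHH', h5.trans hHH', h6.trans hHH', h7.trans hHH', h8⟩
  have hl4 : Real.log 4 ≤ 3 := by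
    have := Real.log_le_sub_one_of_pos (show (0 : ℝ) < 4 by norm_num)
    linarith
  have key : ∀ D r : ℕ, ∃ A : ℝ, 1 ≤ A ∧ ∀ n : ℕ, 2 ≤ n →
      ∀ i j k l : ℤ, |i| ≤ D → |j| ≤ D → |k| ≤ D → |l| ≤ D → i * l - j * k ≠ 0 →
      ∀ (H y y' : ℝ) (K K' : ℕ) (N N' X : ℝ), 1 ≤ H → Image H (Real.pi ^ i * t n ^ j) y →
        Image H (Real.pi ^ k * t n ^ l) y' → 0 ≤ N → 0 ≤ N' → Simple r K N X y → Simple r K' N' X y' →
        X ≤ A ^ (K + K' + 1) * (N + N' + Real.log H + 1) := by
    intro D r
    obtain ⟨A, hA, h⟩ := Run7.h360.CF.simple_line_unif Real.pi hm D r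
    refine ⟨4 * A, by linarith, ?_⟩
    intro n hn i j k l hi hj hk hl hd H y y' K K' N N' X hH hy hy' hN hN' hs hs'
    have hz1 := le_t hn
    have hz2 := t_le hn
    have habs : |t n| = t n := abs_of_pos (by linarith)
    have h1 := h (t n) (4 * H) (by linarith) (by rw [habs]; nlinarith) (by rw [habs]; linarith) i j k l hi hj hk hl
      hd y y' K K' N N' X (himg _ _ _ _ (by linarith) hy) (himg _ _ _ _ (by linarith) hy') hN hN' hs hs'
    refine h1.trans ?_
    have hlH : 0 ≤ Real.log H := Real.log_nonneg hH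
    rw [Real.log_mul (by norm_num) (by linarith)]
    have h4 : (4 : ℝ) * A ^ (K + K' + 1) ≤ (4 * A) ^ (K + K' + 1) := by
      rw [mul_pow]
      exact mul_le_mul_of_nonneg_right (le_self_pow₀ (by norm_num) (by omega)) (by positivity)
    calc A ^ (K + K' + 1) * (N + N' + (Real.log 4 + Real.log H) + 1)
        ≤ A ^ (K + K' + 1) * (4 * (N + N' + Real.log H + 1)) :=
          mul_le_mul_of_nonneg_left (by linarith) (by positivity)
      _ = 4 * A ^ (K + K' + 1) * (N + N' + Real.log H + 1) := by ring
      _ ≤ _ := mul_le_mul_of_nonneg_right h4 (by linarith)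
  refine ⟨key, ?_, ?_, ?_⟩
  · intro D r hr
    obtain ⟨A, hA, h⟩ := key (D + 1) r
    refine ⟨3 * A, by linarith, ?_⟩
    intro n hn p q M hq hqM hpq i j hi hj hi0 H y K N X hH hy hN hs
    have hq1 : (1 : ℝ) ≤ q := by exact_mod_cast hq
    have hM1 : 1 ≤ M := hq1.trans hqM
    have hz1 := le_t hn
    have hz2 := t_le hn
    have habs : |t n| = t n := abs_of_pos (by linarith)
    have hHH' : H ≤ 2 * H := by linarith
    have hid : Image (2 * H) (Real.pi ^ (0 : ℤ) * t n ^ (1 : ℤ)) (t n) := by
      refine ⟨by rw [habs]; linarith, 1, 0, 0, 1, by norm_num, ?_, ?_, ?_, ?_, ?_⟩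
      · push_cast; rw [abs_one]; linarith
      · push_cast; rw [abs_zero]; linarith
      · push_cast; rw [abs_zero]; linarith
      · push_cast; rw [abs_one]; linarith
      · push_cast; rw [zpow_zero, zpow_one]; ring
    have hsr : Simple r 0 (Real.log M) X (t n) := by
      rw [hpq]
      exact Run7.h360.CF.simple_of_rat p q hq M hqM r hr 0 X
    have hlM : 0 ≤ Real.log M := Real.log_nonneg hM1
    have hD0 : (0 : ℤ) ≤ D := Int.natCast_nonneg D
    have h9 := h n hn i j 0 1 (by push_cast; linarith) (by push_cast; linarith) (by push_cast; rw [abs_zero]; linarith)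
      (by push_cast; rw [abs_one]; linarith) (by simpa using hi0) (2 * H) y _ K 0 N (Real.log M) X (by linarith)
      (himg _ _ _ _ hHH' hy) hid hN hlM hs hsr
    refine h9.trans ?_
    have hlH : 0 ≤ Real.log H := Real.log_nonneg hH
    have hl2 : Real.log 2 ≤ 1 := by
      have := Real.log_le_sub_one_of_pos (show (0 : ℝ) < 2 by norm_num)
      linarith
    rw [Real.log_mul (by norm_num) (by linarith), add_zero]
    have h4 : (3 : ℝ) * A ^ (K + 1) ≤ (3 * A) ^ (K + 1) := by
      rw [mul_pow]
      exact mul_le_mul_of_nonneg_right (le_self_pow₀ (by norm_num) (by omega)) (by positivity)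
    calc A ^ (K + 1) * (N + Real.log M + (Real.log 2 + Real.log H) + 1)
        ≤ A ^ (K + 1) * (3 * (N + Real.log M + Real.log H + 1)) :=
          mul_le_mul_of_nonneg_left (by linarith) (by positivity)
      _ = 3 * A ^ (K + 1) * (N + Real.log M + Real.log H + 1) := by ring
      _ ≤ _ := mul_le_mul_of_nonneg_right h4 (by linarith)
  · intro m D r
    obtain ⟨A, hA, h⟩ := Run7.h360.CF.simple_mono Real.pi hm m D r
    refine ⟨4 * A, by linarith, fun n H K N X hn hH hN hX => ?_⟩
    have hlH : 0 ≤ Real.log H := Real.log_nonneg hH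
    have hX' : A ^ (K + 1) * (N + Real.log (4 * H) + 1) < X := by
      refine lt_of_le_of_lt ?_ hX
      rw [Real.log_mul (by norm_num) (by linarith)]
      have h4 : (4 : ℝ) * A ^ (K + 1) ≤ (4 * A) ^ (K + 1) := by
        rw [mul_pow]
        exact mul_le_mul_of_nonneg_right (le_self_pow₀ (by norm_num) (by omega)) (by positivity)
      calc A ^ (K + 1) * (N + (Real.log 4 + Real.log H) + 1) ≤ A ^ (K + 1) * (4 * (N + Real.log H + 1)) :=
            mul_le_mul_of_nonneg_left (by linarith) (by positivity)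
        _ = 4 * A ^ (K + 1) * (N + Real.log H + 1) := by ring
        _ ≤ _ := mul_le_mul_of_nonneg_right h4 (by linarith)
    have h0 := h (fun j => t (n j)) (4 * H) K N X (by linarith) (fun j => by
      have hz1 := le_t (hn j)
      have hz2 := t_le (hn j)
      have habs : |t (n j)| = t (n j) := abs_of_pos (by linarith)
      rw [habs]
      exact ⟨by nlinarith, by linarith⟩) hN hX'
    intro hmem
    refine h0 (Submodule.span_mono ?_ hmem)
    rintro _ ⟨a, ⟨ha, y, hy, hs⟩, rfl⟩
    exact ⟨a, ⟨ha, y, himg _ _ _ _ (by linarith) hy, hs⟩, rfl⟩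
  · intro m D r
    obtain ⟨A, hA, h⟩ := Run7.h360.CF.simple_poly Real.pi hm m D r
    exact ⟨A, hA, fun n H K N X hH hN hX => h (fun j => t (n j)) H K N X hH hN hX⟩

end Pool.Agent.Results.MP_f1a024_nt.SimpleMonomialsUniformInN
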