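import Mathlib
import Pool.Agent.Run7.h274.RealWin
import Pool.Agent.Results.MP_f1a024_nt.DigitsAndSUnits

/-!
# `ζ(2n) / ζ(n) ^ 2` at large integers: all words in the digits of bounded multiples

Let `t(n) = ζ(2n) / ζ(n) ^ 2`, `b ≥ 2`, and let `y = ∑ c_j t(n + j)` be a combination of
`t(n), …, t(n + h)` whose coefficients are sums of `R` terms `a b ^ s` (so integers, or sums of shifted
expansions). For all large `n`, every word of length `l` stands at least `T` times in EVERY window of at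
least `ε n` consecutive places between `κ n` and `C n` of the base `b` expansion of `m y`, for at
least `M / (16 b ^ l)` of the `m ≤ M`, as soon as `M ≥ 4 (b + 1) b ^ l`; and for all but `δ M` of the
`m ≤ M` all words stand at least `T` times in all these windows, for `M ≥ M₀(b, l, δ)`.

Input: the lower bounds for linear forms with `S`-unit coefficients of the starting file
`DigitsAndSUnits`. New: the passage from such bounds to words in the digits of multiples
(`Pool.Agent.Run7.h274`).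
-/

set_option autoImplicit false

namespace Pool.Agent.Results.MP_f1a024_nt.WordsInMultiples

open Finset

/-- the value of the Riemann zeta function at the integer `s ≥ 2` -/
noncomputable def zeta (s : ℕ) : ℝ := ∑' k : ℕ, 1 / ((k : ℝ) + 1) ^ s

/-- `t(n) = ζ(2n) / ζ(n) ^ 2` -/
noncomputable def t (n : ℕ) : ℝ := zeta (2 * n) / zeta n ^ 2

/-- `c` is a sum of `R` terms `a b ^ s`, with integers `|a| ≤ R` and integers `|s| ≤ X` -/
def IsCoeff (b R : ℕ) (X : ℝ) (c : ℚ) : Prop :=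
  ∃ a s : Fin R → ℤ, (∀ r, |a r| ≤ R ∧ |(s r : ℝ)| ≤ X) ∧ c = ∑ r, (a r : ℚ) * (b : ℚ) ^ s r

/-- the number of the `k`, `u ≤ k`, `k + l ≤ u + L`, such that the digits of `x` in base `b` at the
places `k + 1, …, k + l` after the point form the word with value `W` -/
noncomputable def words (b l W : ℕ) (x : ℝ) (u L : ℕ) : ℕ :=
  ((Ico u (u + L)).filter
    (fun k : ℕ => k + l ≤ u + L ∧ ⌊(b : ℝ) ^ (k + l) * x⌋ % ((b : ℤ) ^ l) = (W : ℤ))).card

lemma words_eq (b l W : ℕ) (x : ℝ) (u L : ℕ) :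
    words b l W x u L = Pool.Agent.Run7.h274.RW.wc b l W x u L := rfl

lemma t_eq (n : ℕ) : DigitsAndSUnits.t n = t n := rfl

lemma zpow_prod {b : ℕ} (hb : 2 ≤ b) (s : ℤ) :
    (b : ℚ) ^ s = ∏ p ∈ b.primeFactors, (p : ℚ) ^ (s * (b.factorization p : ℤ)) := by
  have h1 : (b : ℚ) = ∏ p ∈ b.primeFactors, (p : ℚ) ^ (b.factorization p) := by
    conv_lhs => rw [← Nat.prod_factorization_pow_eq_self (show b ≠ 0 by omega)]
    rw [Finsupp.prod, Nat.support_factorization]
    push_cast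
    rfl
  conv_lhs => rw [h1]
  rw [← Finset.prod_zpow]
  refine prod_congr rfl fun p hp => ?_
  rw [← zpow_natCast, ← zpow_mul, mul_comm]

lemma sunit {b R R' : ℕ} (hb : 2 ≤ b) {X : ℝ} {c : ℚ} (hc : IsCoeff b R X c) (d e : ℕ)
    (hR : R * d ≤ R') (hR' : R ≤ R') {Y : ℝ} (hY : ((e : ℝ) + X) * b ≤ Y) (hY0 : 0 ≤ Y) :
    DigitsAndSUnits.SUnitSum b.primeFactors R' Y ((d : ℚ) * (b : ℚ) ^ e * c) := by
  classical
  obtain ⟨a, s, has, hc⟩ := hc
  have hbQ : (b : ℚ) ≠ 0 := by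
    have : b ≠ 0 := by omega
    exact_mod_cast this
  refine ⟨fun r => if h : (r : ℕ) < R then (d : ℤ) * a ⟨r, h⟩ else 0,
    fun r p => if h : (r : ℕ) < R then ((e : ℤ) + s ⟨r, h⟩) * (b.factorization p : ℤ) else 0,
    fun r => ?_, fun r p hp => ?_, ?_⟩
  · simp only
    split_ifs with h
    · rw [abs_mul, Nat.abs_cast]
      have h1 := (has ⟨r, h⟩).1
      have h2 : (d : ℤ) * |a ⟨r, h⟩| ≤ d * R := mul_le_mul_of_nonneg_left h1 (by positivity)
      have h3 : ((R * d : ℕ) : ℤ) ≤ R' := by exact_mod_cast hR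
      push_cast at h3
      linarith
    · simp
  · simp only
    split_ifs with h
    · have h1 := (has ⟨r, h⟩).2
      have h2 : b.factorization p ≤ b := (Nat.factorization_lt p (by omega)).le
      have h2R : (b.factorization p : ℝ) ≤ b := by exact_mod_cast h2
      push_cast
      rw [abs_mul, Nat.abs_cast]
      have h3 : |(e : ℝ) + (s ⟨r, h⟩ : ℝ)| ≤ (e : ℝ) + X := by
        refine (abs_add_le _ _).trans ?_
        rw [Nat.abs_cast]
        linarith
      have h4 : 0 ≤ (e : ℝ) + X := (abs_nonneg _).trans h3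
      calc |(e : ℝ) + (s ⟨r, h⟩ : ℝ)| * (b.factorization p : ℝ)
          ≤ ((e : ℝ) + X) * b := mul_le_mul h3 h2R (by positivity) h4
        _ ≤ Y := hY
    · simpa using hY0
  · rw [hc, mul_sum]
    have e1 : ∀ f : Fin R → ℚ, ∑ r : Fin R', (if h : (r : ℕ) < R then f ⟨r, h⟩ else 0) = ∑ r, f r := by
      intro f
      have h1 := Fin.sum_univ_eq_sum_range (fun r : ℕ => if h : r < R then f ⟨r, h⟩ else 0) R'
      have h2 := Fin.sum_univ_eq_sum_range (fun r : ℕ => if h : r < R then f ⟨r, h⟩ else 0) R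
      rw [h1]
      have h3 : ∑ r ∈ range R', (if h : r < R then f ⟨r, h⟩ else 0) =
          ∑ r ∈ range R, (if h : r < R then f ⟨r, h⟩ else 0) := by
        refine (sum_subset (range_subset_range.2 hR') ?_).symm
        intro r _ hr
        rw [mem_range] at hr
        rw [dif_neg hr]
      rw [h3, ← h2]
      refine sum_congr rfl fun r _ => ?_
      rw [dif_pos r.2]
    rw [← e1]
    refine sum_congr rfl fun r _ => ?_
    simp only
    split_ifs with h
    · rw [← zpow_prod hb, zpow_add₀ hbQ, zpow_natCast]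
      push_cast
      ring
    · simp

open Classical in
/-- **Result.** Let `b ≥ 2` and `h ≥ 0`. There is `K ≥ 2` such that for all `l ≥ 1`, `T`, `R`, all
`δ, ε > 0` and `C` there are `M₀`, `n₀` such that for all `n ≥ n₀` and all combinations
`y = ∑ c_j t(n + j)` with coefficients `c_j` which are sums of `R` terms `a b ^ s`, `|a| ≤ R`,
`|s| ≤ C n`:
(1) for all `M ≥ 4 (b + 1) b ^ l`, all windows `[u, u + L)` with `L ≥ ε n`, `u + L ≤ C n` and
`b ^ u |c_j| ≥ K ^ n` for some `j`, and all words of length `l`: for at least `M / (16 b ^ l)` of the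
`m ≤ M` the word stands at least `T` times in this window of the expansion of `m y`;
(2) if `M ≥ M₀`, then for all but `δ M` of the `m ≤ M` all words of length `l` stand at least `T` times
in all these windows of the expansion of `m y`. -/
theorem result (b h : ℕ) (hb : 2 ≤ b) : ∃ K : ℕ, 2 ≤ K ∧ ∀ (l T R : ℕ) (δ ε C : ℝ), 1 ≤ l → 0 < δ →
    0 < ε → ∃ M₀ n₀ : ℕ, ∀ n : ℕ, n₀ ≤ n → ∀ c : Fin (h + 1) → ℚ, (∀ j, IsCoeff b R (C * n) (c j)) →
    (∀ M : ℕ, 4 * (b + 1) * b ^ l ≤ M → ∀ u L : ℕ, ε * n ≤ L → (u : ℝ) + L ≤ C * n →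
      (∃ j, (K : ℝ) ^ n ≤ (b : ℝ) ^ u * |(c j : ℝ)|) → ∀ W < b ^ l,
      M ≤ 16 * b ^ l * ((Icc 1 M).filter (fun m : ℕ =>
        T ≤ words b l W ((m : ℝ) * ∑ j : Fin (h + 1), (c j : ℝ) * t (n + j)) u L)).card) ∧
    (∀ M : ℕ, M₀ ≤ M → (((Icc 1 M).filter (fun m : ℕ => ¬ ∀ u L : ℕ, ε * n ≤ L →
      (u : ℝ) + L ≤ C * n → (∃ j, (K : ℝ) ^ n ≤ (b : ℝ) ^ u * |(c j : ℝ)|) → ∀ W < b ^ l,
        T ≤ words b l W ((m : ℝ) * ∑ j : Fin (h + 1), (c j : ℝ) * t (n + j)) u L)).card : ℝ) ≤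
      δ * M) := by
  obtain ⟨K, hK2, hK⟩ := (DigitsAndSUnits.result h).1 b.primeFactors
    (fun p hp => Nat.prime_of_mem_primeFactors hp)
  refine ⟨K, hK2, fun l T R δ ε C hl hδ hε => ?_⟩
  have hbR : (2 : ℝ) ≤ b := by exact_mod_cast hb
  obtain ⟨J, hJ⟩ := exists_nat_gt (4 * |C| / ε)
  have hJ1 : 1 ≤ J := by
    have : (0 : ℝ) < J := lt_of_le_of_lt (by positivity) hJ
    exact_mod_cast this
  have hJC : |C| ≤ J * (ε / 4) := by
    rw [div_lt_iff₀ hε] at hJ
    linarith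
  obtain ⟨D, A, hD1, hA1, hwin⟩ := Pool.Agent.Run7.h274.RW.windows hb hl T J hJ1 hδ
  have hAR : (1 : ℝ) ≤ A := by exact_mod_cast hA1
  set B : ℝ := (2 : ℝ) ^ (ε / (4 * A)) with hB
  have hB1 : 1 < B := Real.one_lt_rpow (by norm_num) (by positivity)
  set C' : ℝ := (J * ε + 2 * |C|) * b with hC'
  obtain ⟨n1, hn1⟩ := hK (R * D + R) C' B hB1
  obtain ⟨n2, hn2⟩ := exists_nat_gt (16 * A / ε)
  have far : ∀ n : ℕ, n1 + n2 ≤ n → ∀ c : Fin (h + 1) → ℚ, (∀ j, IsCoeff b R (C * n) (c j)) →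
      ∀ u0 : ℕ, (∃ j, (K : ℝ) ^ n ≤ (b : ℝ) ^ u0 * |(c j : ℝ)|) → (u0 : ℝ) ≤ C * n →
      Pool.Agent.Run7.h274.WM.Far b D (⌊ε * n / 2⌋₊ / A - 1) (J * ⌊ε * n / 2⌋₊)
        ((b : ℝ) ^ u0 * ∑ j : Fin (h + 1), (c j : ℝ) * t (n + j)) := by
    intro n hn c hc u0 hu0 hu0C k hk d hd1 hd2 z
    have hn0 : (0 : ℝ) ≤ n := Nat.cast_nonneg n
    have hs1 : ((⌊ε * n / 2⌋₊ : ℕ) : ℝ) ≤ ε * n / 2 := Nat.floor_le (by positivity)
    have hs2 : ε * n / 2 < (⌊ε * n / 2⌋₊ : ℕ) + 1 := Nat.lt_floor_add_one _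
    set s : ℕ := ⌊ε * n / 2⌋₊ with hs
    have hn3 : 16 * (A : ℝ) < ε * n := by
      have h1 : 16 * (A : ℝ) / ε < n := hn2.trans_le (by exact_mod_cast (by omega : n2 ≤ n))
      rw [div_lt_iff₀ hε] at h1
      linarith
    have hcn : C * n ≤ |C| * n := mul_le_mul_of_nonneg_right (le_abs_self C) hn0
    have hkR : ((k : ℕ) : ℝ) ≤ J * ε * n := by
      have h1 : (k : ℝ) ≤ J * s := by exact_mod_cast hk.le
      have h2 : (J : ℝ) * s ≤ J * (ε * n / 2) := mul_le_mul_of_nonneg_left hs1 (Nat.cast_nonneg _)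
      have h3 : 0 ≤ (J : ℝ) * (ε * n / 2) := by positivity
      nlinarith
    obtain ⟨i, hi⟩ := hu0
    have hSU : ∀ j, DigitsAndSUnits.SUnitSum b.primeFactors (R * D + R) (C' * n)
        ((d : ℚ) * (b : ℚ) ^ (k + u0) * c j) := by
      intro j
      refine sunit hb (hc j) d (k + u0) ?_ (by omega) ?_ ?_
      · have : R * d ≤ R * D := Nat.mul_le_mul_left _ hd2.le
        omega
      · rw [hC']
        push_cast
        have h1 : (k : ℝ) + u0 + C * n ≤ (J * ε + 2 * |C|) * n := by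
          nlinarith
        calc ((k : ℝ) + u0 + C * n) * b ≤ ((J * ε + 2 * |C|) * n) * b :=
              mul_le_mul_of_nonneg_right h1 (by positivity)
          _ = (J * ε + 2 * |C|) * b * n := by ring
      · rw [hC']; positivity
    have hbp : (0 : ℝ) < (b : ℝ) ^ (k + u0) := by positivity
    have hKn : (0 : ℝ) < (K : ℝ) ^ n := by
      have : (0 : ℝ) < K := by
        have : 0 < K := by omega
        exact_mod_cast this
      positivity
    have hdR : (1 : ℝ) ≤ d := by exact_mod_cast hd1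
    have hbk : (1 : ℝ) ≤ (b : ℝ) ^ k := one_le_pow₀ (by linarith)
    have hDi : (K : ℝ) ^ n ≤ |((((d : ℚ) * (b : ℚ) ^ (k + u0) * c i : ℚ)) : ℝ)| := by
      push_cast
      rw [abs_mul, abs_of_nonneg (show (0 : ℝ) ≤ (d : ℝ) * (b : ℝ) ^ (k + u0) by positivity), pow_add]
      have h1 : (0 : ℝ) ≤ (b : ℝ) ^ u0 * |(c i : ℝ)| := by positivity
      have h2 : (1 : ℝ) ≤ (d : ℝ) * (b : ℝ) ^ k := by nlinarith
      calc (K : ℝ) ^ n ≤ (b : ℝ) ^ u0 * |(c i : ℝ)| := hi
        _ ≤ ((d : ℝ) * (b : ℝ) ^ k) * ((b : ℝ) ^ u0 * |(c i : ℝ)|) := le_mul_of_one_le_left h1 h2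
        _ = (d : ℝ) * ((b : ℝ) ^ k * (b : ℝ) ^ u0) * |(c i : ℝ)| := by ring
    have hne : ∃ j, (d : ℚ) * (b : ℚ) ^ (k + u0) * c j ≠ 0 := by
      refine ⟨i, fun h0 => ?_⟩
      rw [h0] at hDi
      simp only [Rat.cast_zero, abs_zero] at hDi
      linarith
    have hmain := hn1 n (by omega) (fun j => (d : ℚ) * (b : ℚ) ^ (k + u0) * c j) hSU hne z i
    rw [min_eq_left ((one_le_div hKn).2 hDi), mul_one] at hmain
    have e1 : ∑ j : Fin (h + 1), (((d : ℚ) * (b : ℚ) ^ (k + u0) * c j : ℚ) : ℝ) *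
        DigitsAndSUnits.t (n + j) = (d : ℝ) * ((b : ℝ) ^ k * ((b : ℝ) ^ u0 *
          ∑ j : Fin (h + 1), (c j : ℝ) * t (n + j))) := by
      rw [mul_sum, mul_sum, mul_sum]
      refine sum_congr rfl fun j _ => ?_
      rw [t_eq]
      push_cast
      rw [pow_add]
      ring
    rw [e1] at hmain
    refine lt_of_le_of_lt ?_ hmain
    rw [one_div]
    refine inv_anti₀ (by positivity) ?_
    -- `B ^ n ≤ b ^ w`
    have hsA : (s : ℝ) / A - 1 < ((s / A : ℕ) : ℝ) := by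
      have h1 : s < A * (s / A + 1) := Nat.lt_mul_div_succ s (by omega)
      have h2 : (s : ℝ) < A * (((s / A : ℕ) : ℝ) + 1) := by exact_mod_cast h1
      rw [sub_lt_iff_lt_add, div_lt_iff₀ (by linarith)]
      linarith
    have h5 : ε * n / (4 * A) ≤ ((s / A - 1 : ℕ) : ℝ) := by
      have h6 : ((s / A : ℕ) : ℝ) - 1 ≤ ((s / A - 1 : ℕ) : ℝ) := by
        have : s / A ≤ (s / A - 1) + 1 := by omega
        have h7 : ((s / A : ℕ) : ℝ) ≤ ((s / A - 1 : ℕ) : ℝ) + 1 := by exact_mod_cast this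
        linarith
      have h8 : (ε * n / 2 - 1) / A ≤ (s : ℝ) / A := by
        gcongr
        linarith
      have h9 : ε * n / (4 * A) + 3 ≤ (ε * n / 2 - 1) / A := by
        rw [le_div_iff₀ (by linarith)]
        have : (ε * n / (4 * A) + 3) * A = ε * n / 4 + 3 * A := by
          field_simp
        rw [this]
        linarith
      linarith
    calc B ^ n = (2 : ℝ) ^ (ε * n / (4 * A)) := by
          rw [hB, ← Real.rpow_natCast, ← Real.rpow_mul (by norm_num)]
          congr 1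
          ring
      _ ≤ (2 : ℝ) ^ (((s / A - 1 : ℕ) : ℝ)) := Real.rpow_le_rpow_of_exponent_le (by norm_num) h5
      _ = (2 : ℝ) ^ (s / A - 1 : ℕ) := Real.rpow_natCast _ _
      _ ≤ (b : ℝ) ^ (s / A - 1 : ℕ) := pow_le_pow_left₀ (by norm_num) hbR _
  refine ⟨D, n1 + n2, fun n hn c hc => ?_⟩
  have hn0 : (0 : ℝ) ≤ n := Nat.cast_nonneg n
  have hs1 : ((⌊ε * n / 2⌋₊ : ℕ) : ℝ) ≤ ε * n / 2 := Nat.floor_le (by positivity)
  have hs2 : ε * n / 2 < (⌊ε * n / 2⌋₊ : ℕ) + 1 := Nat.lt_floor_add_one _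
  have far' := far n hn c hc
  set s : ℕ := ⌊ε * n / 2⌋₊ with hs
  have hn3 : 16 * (A : ℝ) < ε * n := by
    have h1 : 16 * (A : ℝ) / ε < n := hn2.trans_le (by exact_mod_cast (by omega : n2 ≤ n))
    rw [div_lt_iff₀ hε] at h1
    linarith
  have hsA : A ≤ s := by
    have h1 : (A : ℝ) ≤ s := by linarith
    exact_mod_cast h1
  have hAw : A * (s / A - 1 + 1) ≤ s := by
    have h1 : 1 ≤ s / A := Nat.div_pos hsA (by omega)
    rw [Nat.sub_add_cancel h1]
    exact Nat.mul_div_le s A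
  have hCJ : C * n ≤ J * s := by
    have h1 : C * n ≤ |C| * n := mul_le_mul_of_nonneg_right (le_abs_self C) hn0
    have h2 : |C| * n ≤ J * (ε / 4) * n := mul_le_mul_of_nonneg_right hJC hn0
    have h3 : ε / 4 * n ≤ s := by linarith
    have h4 : (J : ℝ) * (ε / 4 * n) ≤ J * s := mul_le_mul_of_nonneg_left h3 (Nat.cast_nonneg _)
    linarith
  refine ⟨fun M hM u L hL huL hu W hW => ?_, fun M hM => ?_⟩
  · have hLR : (0 : ℝ) ≤ L := Nat.cast_nonneg _
    obtain ⟨h1, -⟩ := hwin (∑ j : Fin (h + 1), (c j : ℝ) * t (n + j)) u s (s / A - 1) hAw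
      (far' u hu (by linarith))
    have hsL : s ≤ L := by
      have : (s : ℝ) ≤ L := by
        have : (0 : ℝ) ≤ ε * n := by positivity
        linarith
      exact_mod_cast this
    have h2 := h1 u le_rfl (Nat.add_le_add_left (Nat.le_mul_of_pos_left s (by omega)) u) M hM W hW
    refine h2.trans (Nat.mul_le_mul_left _ (card_le_card fun m hm => ?_))
    rw [mem_filter] at hm ⊢
    refine ⟨hm.1, hm.2.trans ?_⟩
    rw [words_eq]
    exact Pool.Agent.Run7.h274.RW.wc_mono le_rfl (by omega)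
  · by_cases hex : ∃ u : ℕ, (∃ j, (K : ℝ) ^ n ≤ (b : ℝ) ^ u * |(c j : ℝ)|) ∧ (u : ℝ) ≤ C * n
    · have hex' : ∃ u : ℕ, (∃ j, (K : ℝ) ^ n ≤ (b : ℝ) ^ u * |(c j : ℝ)|) :=
        hex.imp fun u hu => hu.1
      set u0 := Nat.find hex' with hu0
      have hu0s := Nat.find_spec hex'
      have hu0C : (u0 : ℝ) ≤ C * n := by
        obtain ⟨u, hu1, hu2⟩ := hex
        have h1 : u0 ≤ u := Nat.find_min' hex' hu1
        have h2 : (u0 : ℝ) ≤ u := by exact_mod_cast h1
        linarith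
      obtain ⟨-, h2⟩ := hwin (∑ j : Fin (h + 1), (c j : ℝ) * t (n + j)) u0 s (s / A - 1) hAw
        (far' u0 hu0s hu0C)
      refine le_trans ?_ (h2 M hM)
      rw [Nat.cast_le]
      refine card_le_card fun m hm => ?_
      rw [mem_filter] at hm ⊢
      refine ⟨hm.1, fun hall => hm.2 fun u L hL huL hu W hW => ?_⟩
      have h3 : u0 ≤ u := Nat.find_min' hex' hu
      have hsL : 2 * s ≤ L := by
        have : (2 : ℝ) * s ≤ L := by linarith
        exact_mod_cast this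
      have h4 : u + L ≤ J * s := by
        have : (u : ℝ) + L ≤ J * s := huL.trans hCJ
        exact_mod_cast this
      rw [words_eq]
      exact (hall u h3 (by omega) W hW).trans (Pool.Agent.Run7.h274.RW.wc_mono le_rfl (by omega))
    · have hem : ((Icc 1 M).filter (fun m : ℕ => ¬ ∀ u L : ℕ, ε * n ≤ L →
          (u : ℝ) + L ≤ C * n → (∃ j, (K : ℝ) ^ n ≤ (b : ℝ) ^ u * |(c j : ℝ)|) → ∀ W < b ^ l,
          T ≤ words b l W ((m : ℝ) * ∑ j : Fin (h + 1), (c j : ℝ) * t (n + j)) u L)) = ∅ := by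
        rw [filter_eq_empty_iff]
        intro m _ hcon
        apply hcon
        intro u L _ huL hu W _
        exfalso
        apply hex
        have hLR : (0 : ℝ) ≤ L := Nat.cast_nonneg _
        exact ⟨u, hu, by linarith⟩
      rw [hem, card_empty, Nat.cast_zero]
      positivity

end Pool.Agent.Results.MP_f1a024_nt.WordsInMultiples
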